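import Mathlib

set_option autoImplicit false

/-!
# Ultrafilters with basic Tukey reductions are exactly the p-points

We work with the definitions of the problem file.  Strings (elements of `2^{<ω}`) are lists of
Booleans, and `d s` is the set of positions at which the string `s` has the value `1` (`true`).

Remark on monotonicity of `fhat`.  The problem file asks that `d s ⊆ d t` implies
`d (fhat s) ⊆ d (fhat t)` for `s, t` in `D`.  We treat two versions: the one which requires this for all
`s, t` in `D` (`IsBasicOn`), and the weaker one which requires it only for strings of the same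
length (`IsLevelBasicOn`).
-/

namespace Pool.Agent.Results.MP_1c3dfa_lc.BasicTukeyIffPPoint

open Set

/-- An ultrafilter is nonprincipal if it contains no singleton. -/
def Nonprincipal {α : Type*} (U : Ultrafilter α) : Prop := ∀ a : α, ({a} : Set α) ∉ U

/-- `C` is a cofinal subset of the directed set `(U, ⊇)`. -/
def IsCofinalIn {α : Type*} (U : Ultrafilter α) (C : Set (Set α)) : Prop :=
  (∀ X ∈ C, X ∈ U) ∧ ∀ X ∈ U, ∃ Y ∈ C, Y ⊆ X

/-- `f` (restricted to `U`) is a cofinal map from `(U, ⊇)` to `(V, ⊇)`: it maps `U` to `V` and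
sends cofinal subsets of `U` to cofinal subsets of `V`. -/
def IsCofinalMap {α β : Type*} (U : Ultrafilter α) (V : Ultrafilter β) (f : Set α → Set β) :
    Prop :=
  (∀ X ∈ U, f X ∈ V) ∧ ∀ C : Set (Set α), IsCofinalIn U C → IsCofinalIn V (f '' C)

/-- `f` is monotone on the family `D`: if `X ⊇ Y` are in `D` then `f X ⊇ f Y`. -/
def IsMonotoneOn {α β : Type*} (f : Set α → Set β) (D : Set (Set α)) : Prop :=
  ∀ X ∈ D, ∀ Y ∈ D, Y ⊆ X → f Y ⊆ f X

/-- For a string `s`, the set `d s` of positions where `s` takes the value `1`. -/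
def d (s : List Bool) : Set ℕ := {i | s[i]? = some true}

/-- `a ⊑ X`: the set `a` is an initial segment of `X` in its increasing enumeration. -/
def InitSeg (a X : Set ℕ) : Prop := a ⊆ X ∧ ∀ x ∈ X, ∀ y ∈ a, x ≤ y → x ∈ a

/-- The set `D` of strings `s` of length some `k m` with `d s = X ∩ k m` for some `X` in the
family `F`. -/
def strings (F : Set (Set ℕ)) (k : ℕ → ℕ) : Set (List Bool) :=
  {s | ∃ m, s.length = k m ∧ ∃ X ∈ F, d s = X ∩ Iio (k m)}

/-- `f` restricted to the family `F` is basic (literal definition of the problem file; `fhat` is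
monotone for arbitrary strings of `D`). -/
def IsBasicOn (f : Set ℕ → Set ℕ) (F : Set (Set ℕ)) : Prop :=
  IsMonotoneOn f F ∧
  ∃ (k : ℕ → ℕ) (fhat : List Bool → List Bool), StrictMono k ∧
    (∀ m, ∀ s ∈ strings F k, s.length = k m → (fhat s).length = m) ∧
    (∀ s ∈ strings F k, ∀ s' ∈ strings F k, s <+: s' → fhat s <+: fhat s') ∧
    (∀ s ∈ strings F k, ∀ t ∈ strings F k, d s ⊆ d t → d (fhat s) ⊆ d (fhat t)) ∧
    (∀ X ∈ F, f X = ⋃ s ∈ {s ∈ strings F k | InitSeg (d s) X}, d (fhat s))

/-- `f` restricted to the family `F` is basic, where `fhat` is only required to be monotone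
between strings of the same length. -/
def IsLevelBasicOn (f : Set ℕ → Set ℕ) (F : Set (Set ℕ)) : Prop :=
  IsMonotoneOn f F ∧
  ∃ (k : ℕ → ℕ) (fhat : List Bool → List Bool), StrictMono k ∧
    (∀ m, ∀ s ∈ strings F k, s.length = k m → (fhat s).length = m) ∧
    (∀ s ∈ strings F k, ∀ s' ∈ strings F k, s <+: s' → fhat s <+: fhat s') ∧
    (∀ s ∈ strings F k, ∀ t ∈ strings F k, s.length = t.length → d s ⊆ d t →
      d (fhat s) ⊆ d (fhat t)) ∧
    (∀ X ∈ F, f X = ⋃ s ∈ {s ∈ strings F k | InitSeg (d s) X}, d (fhat s))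

/-- `U` has basic Tukey reductions: every monotone cofinal map from `U` to a nonprincipal
ultrafilter `V` on `ω` is basic on some cofinal subset of `U`. -/
def HasBasicTukeyReductions (U : Ultrafilter ℕ) : Prop :=
  ∀ V : Ultrafilter ℕ, Nonprincipal V → ∀ f : Set ℕ → Set ℕ,
    IsMonotoneOn f {X | X ∈ U} → IsCofinalMap U V f →
      ∃ F : Set (Set ℕ), IsCofinalIn U F ∧ IsBasicOn f F

/-- The same with the weaker, levelwise, monotonicity requirement on `fhat`. -/
def HasLevelBasicTukeyReductions (U : Ultrafilter ℕ) : Prop :=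
  ∀ V : Ultrafilter ℕ, Nonprincipal V → ∀ f : Set ℕ → Set ℕ,
    IsMonotoneOn f {X | X ∈ U} → IsCofinalMap U V f →
      ∃ F : Set (Set ℕ), IsCofinalIn U F ∧ IsLevelBasicOn f F

/-- `U` is a p-point: every countable family of sets of `U` has a pseudo-intersection in `U`. -/
def IsPPoint (U : Ultrafilter ℕ) : Prop :=
  ∀ X : ℕ → Set ℕ, (∀ n, X n ∈ U) → ∃ Y ∈ U, ∀ n, (Y \ X n).Finite

/-! ### Basic facts on strings -/

theorem mem_d {s : List Bool} {i : ℕ} : i ∈ d s ↔ s[i]? = some true := Iff.rfl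

theorem lt_length_of_mem_d {s : List Bool} {i : ℕ} (h : i ∈ d s) : i < s.length := by
  rw [mem_d] at h
  by_contra hc
  rw [List.getElem?_eq_none (by omega)] at h
  exact absurd h (by simp)

/-- The string of length `n` with `d = X ∩ n`. -/
noncomputable def chi (X : Set ℕ) (n : ℕ) : List Bool := by
  classical
  exact List.ofFn (n := n) fun i => decide ((i : ℕ) ∈ X)

theorem chi_length (X : Set ℕ) (n : ℕ) : (chi X n).length = n := by
  simp [chi]

theorem d_chi (X : Set ℕ) (n : ℕ) : d (chi X n) = X ∩ Iio n := by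
  ext i
  simp only [mem_d, chi, mem_inter_iff, mem_Iio, List.getElem?_ofFn]
  constructor
  · intro h
    split_ifs at h with h1
    · simp at h
      exact ⟨h, h1⟩
  · rintro ⟨h1, h2⟩
    rw [dif_pos h2]
    simp [h1]

theorem ext_of_d {s t : List Bool} (hl : s.length = t.length) (h : d s = d t) : s = t := by
  apply List.ext_getElem hl
  intro i h1 h2
  have h3 : i ∈ d s ↔ i ∈ d t := by rw [h]
  rw [mem_d, mem_d, List.getElem?_eq_getElem h1, List.getElem?_eq_getElem h2] at h3
  simp only [Option.some.injEq] at h3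
  exact Bool.eq_iff_iff.mpr h3

theorem d_of_isPrefix {s t : List Bool} (h : s <+: t) : d s = d t ∩ Iio s.length := by
  obtain ⟨r, rfl⟩ := h
  ext i
  simp only [mem_inter_iff, mem_Iio, mem_d]
  constructor
  · intro hi
    have := lt_length_of_mem_d (s := s) hi
    rw [List.getElem?_append_left this]
    exact ⟨hi, this⟩
  · rintro ⟨h1, h2⟩
    rw [List.getElem?_append_left h2] at h1
    exact h1

theorem isPrefix_of_d {s t : List Bool} (hl : s.length ≤ t.length)
    (h : d s = d t ∩ Iio s.length) : s <+: t := by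
  have h1 : s = t.take s.length := by
    apply ext_of_d
    · simp [hl]
    · rw [h]
      ext i
      simp only [mem_inter_iff, mem_Iio, mem_d, List.getElem?_take]
      constructor
      · rintro ⟨h1, h2⟩
        rw [if_pos h2]
        exact h1
      · intro h1
        split_ifs at h1 with h2
        exact ⟨h1, h2⟩
  rw [h1]
  exact List.take_prefix _ _

theorem chi_mem_strings {F : Set (Set ℕ)} {k : ℕ → ℕ} {X : Set ℕ} (hX : X ∈ F) (m : ℕ) :
    chi X (k m) ∈ strings F k :=
  ⟨m, chi_length _ _, X, hX, d_chi _ _⟩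

theorem initSeg_chi (X : Set ℕ) (n : ℕ) : InitSeg (d (chi X n)) X := by
  rw [d_chi]
  refine ⟨inter_subset_left, ?_⟩
  rintro x hx y ⟨_, hy⟩ hxy
  exact ⟨hx, lt_of_le_of_lt hxy hy⟩

theorem chi_isPrefix (X : Set ℕ) {m n : ℕ} (h : m ≤ n) : chi X m <+: chi X n := by
  apply isPrefix_of_d
  · rw [chi_length, chi_length]; exact h
  · rw [d_chi, d_chi, chi_length]
    ext i
    simp only [mem_inter_iff, mem_Iio]
    constructor
    · rintro ⟨h1, h2⟩; exact ⟨⟨h1, by omega⟩, h2⟩
    · rintro ⟨⟨h1, _⟩, h2⟩; exact ⟨h1, h2⟩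

/-! ### Basic facts on ultrafilters -/

theorem nonempty_of_mem' {U : Ultrafilter ℕ} {X : Set ℕ} (hX : X ∈ U) : X.Nonempty :=
  U.neBot.nonempty_of_mem hX

/-! ### From basic Tukey reductions to p-points -/

/-- If `U` is not a p-point there is a function which is witnessed to be non-finite-to-one and
unbounded on all sets of `U`. -/
theorem exists_pi_of_not_isPPoint {U : Ultrafilter ℕ} (hP : ¬ IsPPoint U) :
    ∃ p : ℕ → ℕ, (∀ n, {z | n < p z} ∈ U) ∧ ∀ g : ℕ → ℕ, {z | g (p z) < z} ∈ U := by
  classical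
  unfold IsPPoint at hP
  push Not at hP
  obtain ⟨X, hX, hY⟩ := hP
  -- the sets `Z n = ⋂_{i ≤ n} X i \ ⋂ X`
  set B : Set ℕ := ⋂ n, X n with hB
  have hBU : B ∉ U := by
    intro h
    obtain ⟨n, hn⟩ := hY B h
    apply hn
    have : B \ X n = ∅ := by
      rw [sdiff_eq_empty]; exact iInter_subset _ _
    rw [this]; exact finite_empty
  have hBc : Bᶜ ∈ U := Ultrafilter.compl_mem_iff_notMem.mpr hBU
  -- `p z` is the least `n` with `z ∉ X n`, plus one; zero when `z ∈ B`
  let p : ℕ → ℕ := fun z => if h : ∃ n, z ∉ X n then Nat.find h + 1 else 0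
  have hp1 : ∀ n, {z | n < p z} ∈ U := by
    intro n
    have h1 : (⋂ i ∈ Finset.range n, X i) ∩ Bᶜ ∈ U := by
      apply Filter.inter_mem _ hBc
      rw [Filter.biInter_finset_mem]
      intro i _; exact hX i
    refine Filter.mem_of_superset h1 ?_
    rintro z ⟨hz1, hz2⟩
    have h : ∃ n, z ∉ X n := by
      by_contra hc
      push Not at hc
      exact hz2 (mem_iInter.mpr hc)
    simp only [mem_ofPred_eq, p, dif_pos h]
    have : n ≤ Nat.find h := by
      rw [Nat.le_find_iff]
      intro m hm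
      simp only [mem_iInter, Finset.mem_range] at hz1
      simpa using hz1 m hm
    omega
  refine ⟨p, hp1, ?_⟩
  intro g
  by_contra hc
  have hc' : {z | g (p z) < z}ᶜ ∈ U := Ultrafilter.compl_mem_iff_notMem.mpr hc
  obtain ⟨n, hn⟩ := hY ({z | g (p z) < z}ᶜ ∩ Bᶜ) (Filter.inter_mem hc' hBc)
  apply hn
  -- elements of this set outside `X n` have `p z ≤ n + 1`, hence `z ≤ g (p z)` is bounded
  apply Set.Finite.subset (Set.finite_Iic ((Finset.range (n + 2)).sup g))
  rintro z ⟨⟨hz1, hz2⟩, hz3⟩
  simp only [mem_compl_iff, mem_ofPred_eq, not_lt] at hz1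
  have h : ∃ n, z ∉ X n := ⟨n, hz3⟩
  have hpz : p z ≤ n + 1 := by
    simp only [p, dif_pos h]
    have := Nat.find_min' h hz3
    omega
  have : g (p z) ≤ (Finset.range (n + 2)).sup g :=
    Finset.le_sup (f := g) (Finset.mem_range.mpr (by omega))
  exact le_trans hz1 this

theorem isPPoint_of_level {U : Ultrafilter ℕ} (h : HasLevelBasicTukeyReductions U) :
    IsPPoint U := by
  classical
  by_contra hP
  obtain ⟨p, hp, hg⟩ := exists_pi_of_not_isPPoint hP
  -- the image ultrafilter
  let V : Ultrafilter ℕ := U.map p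
  have hV : Nonprincipal V := by
    intro a ha
    have h1 : p ⁻¹' {a} ∈ U := ha
    obtain ⟨z, hz1, hz2⟩ := nonempty_of_mem' (Filter.inter_mem h1 (hp a))
    simp only [mem_preimage, mem_singleton_iff] at hz1
    simp only [mem_ofPred_eq] at hz2
    omega
  let f : Set ℕ → Set ℕ := fun X => p '' X
  have hmono : IsMonotoneOn f {X | X ∈ U} := by
    intro X _ Y _ hXY
    exact image_mono hXY
  have hcof : IsCofinalMap U V f := by
    have hmem : ∀ X ∈ U, f X ∈ V := by
      intro X hX
      change p ⁻¹' (p '' X) ∈ U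
      exact Filter.mem_of_superset hX (subset_preimage_image p X)
    refine ⟨hmem, ?_⟩
    rintro C ⟨hC1, hC2⟩
    refine ⟨?_, ?_⟩
    · rintro _ ⟨X, hX, rfl⟩
      exact hmem X (hC1 X hX)
    · intro Y hY
      obtain ⟨X, hX, hXY⟩ := hC2 (p ⁻¹' Y) hY
      exact ⟨f X, ⟨X, hX, rfl⟩, image_subset_iff.mpr hXY⟩
  obtain ⟨F, ⟨hF1, hF2⟩, _, k, fhat, hk, hlen, hpre, hmon, hgen⟩ := h V hV f hmono hcof
  -- For `X ∈ F` inside `{z | k (p z + 1) < z}`, the least element `a` of `f X` is decided by
  -- the empty set.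
  have key : ∀ X ∈ F, X ⊆ {z | k (p z + 1) < z} → ∀ a, IsLeast (f X) a →
      X ∩ Iio (k (a + 1)) = ∅ ∧ a ∈ d (fhat (chi X (k (a + 1)))) := by
    intro X hX hXZ a ha
    have hempty : X ∩ Iio (k (a + 1)) = ∅ := by
      rw [eq_empty_iff_forall_notMem]
      rintro z ⟨hz1, hz2⟩
      have h1 : a ≤ p z := ha.2 ⟨z, hz1, rfl⟩
      have h2 : k (a + 1) ≤ k (p z + 1) := hk.monotone (by omega)
      have h3 : k (p z + 1) < z := hXZ hz1
      simp only [mem_Iio] at hz2
      omega
    refine ⟨hempty, ?_⟩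
    have h1 : a ∈ f X := ha.1
    rw [hgen X hX] at h1
    simp only [mem_iUnion, mem_ofPred_eq, exists_prop] at h1
    obtain ⟨s, ⟨hs, hsX⟩, has⟩ := h1
    obtain ⟨m, hm, _⟩ := id hs
    have h2 : d s ⊆ d (chi X (k m)) := by
      rw [d_chi]
      intro i hi
      refine ⟨hsX.1 hi, ?_⟩
      have := lt_length_of_mem_d hi
      rw [hm] at this
      exact this
    have h3 : a ∈ d (fhat (chi X (k m))) :=
      hmon s hs _ (chi_mem_strings hX m) (by rw [hm, chi_length]) h2 has
    have h4 : a < m := by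
      have := lt_length_of_mem_d h3
      rwa [hlen m _ (chi_mem_strings hX m) (chi_length _ _)] at this
    have h5 : fhat (chi X (k (a + 1))) <+: fhat (chi X (k m)) :=
      hpre _ (chi_mem_strings hX _) _ (chi_mem_strings hX _)
        (chi_isPrefix X (hk.monotone (by omega)))
    rw [d_of_isPrefix h5, hlen (a + 1) _ (chi_mem_strings hX _) (chi_length _ _)]
    exact ⟨h3, by simp⟩
  have hleast : ∀ X ∈ U, ∃ a, IsLeast (f X) a := by
    intro X hX
    have : (f X).Nonempty := (nonempty_of_mem' hX).image p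
    exact ⟨sInf (f X), Nat.sInf_mem this, fun b hb => Nat.sInf_le hb⟩
  have hZ : {z | k (p z + 1) < z} ∈ U := hg (fun n => k (n + 1))
  obtain ⟨X, hX, hXZ⟩ := hF2 _ hZ
  obtain ⟨a, ha⟩ := hleast X (hF1 X hX)
  obtain ⟨X', hX', hXZ'⟩ := hF2 _ (Filter.inter_mem hZ (hp a))
  obtain ⟨a', ha'⟩ := hleast X' (hF1 X' hX')
  have haa' : a < a' := by
    obtain ⟨z, hz1, hz2⟩ := ha'.1
    have : a < p z := (hXZ' hz1).2
    omega
  obtain ⟨he, h1⟩ := key X hX hXZ a ha
  obtain ⟨he', _⟩ := key X' hX' (fun z hz => (hXZ' hz).1) a' ha'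
  -- the strings `chi X (k (a+1))` and `chi X' (k (a+1))` are both zero
  have heq : chi X (k (a + 1)) = chi X' (k (a + 1)) := by
    apply ext_of_d
    · rw [chi_length, chi_length]
    · rw [d_chi, d_chi, he]
      symm
      rw [eq_empty_iff_forall_notMem] at he' ⊢
      rintro z ⟨hz1, hz2⟩
      apply he' z
      refine ⟨hz1, ?_⟩
      simp only [mem_Iio] at hz2 ⊢
      exact lt_of_lt_of_le hz2 (hk.monotone (by omega))
  rw [heq] at h1
  have h2 : a ∈ f X' := by
    rw [hgen X' hX']
    simp only [mem_iUnion, mem_ofPred_eq, exists_prop]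
    exact ⟨_, ⟨chi_mem_strings hX' _, initSeg_chi _ _⟩, h1⟩
  have := ha'.2 h2
  omega

theorem level_of_basic {U : Ultrafilter ℕ} (h : HasBasicTukeyReductions U) :
    HasLevelBasicTukeyReductions U := by
  intro V hV f hf hc
  obtain ⟨F, hF, hm, k, fhat, hk, h1, h2, h3, h4⟩ := h V hV f hf hc
  exact ⟨F, hF, hm, k, fhat, hk, h1, h2, fun s hs t ht _ => h3 s hs t ht, h4⟩

/-! ### From p-points to (levelwise) basic Tukey reductions -/

theorem level_of_isPPoint {U : Ultrafilter ℕ} (hP : IsPPoint U) :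
    HasLevelBasicTukeyReductions U := by
  classical
  intro V _ f hf _
  -- the witnesses
  have hY : ∀ q : Finset ℕ × ℕ, ∃ Y ∈ U,
      (∃ Y' ∈ U, q.2 ∉ f (↑q.1 ∪ Y')) → q.2 ∉ f (↑q.1 ∪ Y) := by
    intro q
    by_cases h : ∃ Y' ∈ U, q.2 ∉ f (↑q.1 ∪ Y')
    · obtain ⟨Y', h1, h2⟩ := h
      exact ⟨Y', h1, fun _ => h2⟩
    · exact ⟨univ, Filter.univ_mem, fun h' => absurd h' h⟩
  choose Y hYU hYf using hY
  obtain ⟨e, he⟩ := exists_surjective_nat (Finset ℕ × ℕ)
  obtain ⟨X₁, hX₁, hfin⟩ := hP (fun n => Y (e n)) (fun n => hYU _)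
  have hfin' : ∀ q : Finset ℕ × ℕ, (X₁ \ Y q).Finite := by
    intro q
    obtain ⟨n, hn⟩ := he q
    rw [← hn]; exact hfin n
  -- a bound after which `X₁` is inside all relevant `Y q`
  have hb : ∀ N : ℕ, ∃ b : ℕ, ∀ q : Finset ℕ × ℕ, q.1 ⊆ Finset.range N → q.2 ≤ N →
      ∀ x ∈ X₁, b ≤ x → x ∈ Y q := by
    intro N
    have h1 : (⋃ q ∈ ((Finset.range N).powerset ×ˢ Finset.range (N + 1) :
        Finset (Finset ℕ × ℕ)), (X₁ \ Y q)).Finite := by
      apply Set.Finite.biUnion (Finset.finite_toSet _)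
      intro q _; exact hfin' q
    obtain ⟨B, hB⟩ := h1.bddAbove
    refine ⟨B + 1, ?_⟩
    intro q hq1 hq2 x hx hbx
    by_contra hc
    have : x ≤ B := by
      apply hB
      simp only [mem_iUnion]
      refine ⟨q, ?_, hx, hc⟩
      simp only [Finset.mem_product, Finset.mem_powerset, Finset.mem_range]
      exact ⟨hq1, by omega⟩
    omega
  choose b hb using hb
  -- the interval partition
  obtain ⟨a, ha0, hasucc⟩ : ∃ a : ℕ → ℕ, a 0 = 0 ∧
      ∀ j, a (j + 1) = max (b (a j)) (a j + 1) :=
    ⟨fun j => Nat.rec 0 (fun _ r => max (b r) (r + 1)) j, rfl, fun _ => rfl⟩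
  have hamono : StrictMono a := by
    apply strictMono_nat_of_lt_succ
    intro j
    rw [hasucc]
    exact lt_of_lt_of_le (Nat.lt_succ_self _) (le_max_right _ _)
  have haj : ∀ j, j ≤ a j := fun j => hamono.le_apply
  -- index of the interval containing `x`
  have hidx : ∀ x, ∃ j, a j ≤ x ∧ x < a (j + 1) := by
    intro x
    have h1 : ∃ j, x < a j := ⟨x + 1, lt_of_lt_of_le (Nat.lt_succ_self x) (haj _)⟩
    have h2 := Nat.find_spec h1
    have h3 : Nat.find h1 ≠ 0 := by
      intro h; rw [h, ha0] at h2; omega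
    obtain ⟨j, hj⟩ := Nat.exists_eq_succ_of_ne_zero h3
    refine ⟨j, ?_, ?_⟩
    · have := Nat.find_min h1 (m := j) (by omega)
      omega
    · rw [hj] at h2; exact h2
  choose ix hix1 hix2 using hidx
  have hixu : ∀ x j, a j ≤ x → x < a (j + 1) → ix x = j := by
    intro x j h1 h2
    have h3 := hix1 x
    have h4 := hix2 x
    have h5 : ¬ (ix x < j) := by
      intro h
      have : a (ix x + 1) ≤ a j := hamono.monotone (show ix x + 1 ≤ j by omega)
      omega
    have h6 : ¬ (j < ix x) := by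
      intro h
      have : a (j + 1) ≤ a (ix x) := hamono.monotone (show j + 1 ≤ ix x by omega)
      omega
    omega
  -- choose the parity class
  obtain ⟨c, hc⟩ : ∃ c : ℕ, {x | ix x % 2 ≠ c % 2} ∈ U := by
    by_cases h : {x | ix x % 2 ≠ 1 % 2} ∈ U
    · exact ⟨1, h⟩
    · refine ⟨0, ?_⟩
      have h1 : {x | ix x % 2 ≠ 1 % 2}ᶜ ∈ U := Ultrafilter.compl_mem_iff_notMem.mpr h
      refine Filter.mem_of_superset h1 ?_
      intro x hx
      simp only [mem_compl_iff, mem_ofPred_eq, not_not] at hx ⊢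
      omega
  let Xs : Set ℕ := X₁ ∩ {x | ix x % 2 ≠ c % 2}
  have hXs : Xs ∈ U := Filter.inter_mem hX₁ hc
  let k : ℕ → ℕ := fun m => a (2 * m + c)
  have hk : StrictMono k := by
    intro m n hmn
    exact hamono (by omega)
  let F : Set (Set ℕ) := {X | X ∈ U ∧ X ⊆ Xs}
  have hF : IsCofinalIn U F := by
    refine ⟨fun X hX => hX.1, fun X hX => ?_⟩
    exact ⟨X ∩ Xs, ⟨Filter.inter_mem hX hXs, inter_subset_right⟩, inter_subset_left⟩
  -- the key decision property
  have key : ∀ X ∈ F, ∀ m n, n < m →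
      (n ∈ f X ↔ ∀ Y' ∈ U, n ∈ f ((X ∩ Iio (k m)) ∪ Y')) := by
    intro X hX m n hnm
    constructor
    · intro hn Y' hY'
      by_contra hcon
      have hsfin : (X ∩ Iio (k m)).Finite := (finite_Iio (k m)).subset inter_subset_right
      let s : Finset ℕ := hsfin.toFinset
      have hs : (↑s : Set ℕ) = X ∩ Iio (k m) := by simp [s]
      have h1 : n ∉ f (↑s ∪ Y (s, n)) := by
        apply hYf (s, n)
        exact ⟨Y', hY', by rw [hs]; exact hcon⟩
      apply h1
      have hsub : X ⊆ ↑s ∪ Y (s, n) := by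
        intro x hx
        rcases lt_or_ge x (k m) with hxk | hxk
        · refine Or.inl ?_
          rw [hs]; exact ⟨hx, hxk⟩
        · refine Or.inr ?_
          apply hb (k m) (s, n)
          · intro y hy
            have : y ∈ (↑s : Set ℕ) := hy
            rw [hs] at this
            exact Finset.mem_range.mpr this.2
          · have : m ≤ k m := hk.le_apply
            change n ≤ k m
            omega
          · exact (hX.2 hx).1
          · -- `x` is beyond the missed interval
            have h2 : ix x % 2 ≠ c % 2 := (hX.2 hx).2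
            have h3 : 2 * m + c ≤ ix x := by
              by_contra hlt
              have hxk' : a (2 * m + c) ≤ x := hxk
              have h4 : a (ix x + 1) ≤ a (2 * m + c) :=
                hamono.monotone (show ix x + 1 ≤ 2 * m + c by omega)
              have h5 := hix2 x
              omega
            have h4 : 2 * m + c + 1 ≤ ix x := by omega
            have h5 : a (2 * m + c + 1) ≤ a (ix x) := hamono.monotone h4
            have h6 := hix1 x
            rw [hasucc] at h5
            have h7 : b (k m) ≤ max (b (a (2 * m + c))) (a (2 * m + c) + 1) := le_max_left _ _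
            exact le_trans h7 (le_trans h5 h6)
      exact hf _ (show ↑s ∪ Y (s, n) ∈ U from
        Filter.mem_of_superset (hYU (s, n)) subset_union_right) _ hX.1 hsub hn
    · intro h
      have := h X hX.1
      rwa [union_eq_self_of_subset_left inter_subset_left] at this
  -- the finitary map
  let M : List Bool → ℕ := fun l => sInf {m | k m = l.length}
  have hM : ∀ l : List Bool, ∀ m, l.length = k m → M l = m := by
    intro l m hl
    have h : ({m | k m = l.length} : Set ℕ) = {m} := by
      ext m'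
      rw [mem_ofPred_eq, mem_singleton_iff, hl]
      exact hk.injective.eq_iff
    simp only [M, h]
    exact csInf_singleton m
  let fhat : List Bool → List Bool := fun l =>
    List.ofFn (n := M l) fun n => decide (∀ Y' ∈ U, (n : ℕ) ∈ f (d l ∪ Y'))
  have hflen : ∀ l, (fhat l).length = M l := by intro l; simp [fhat]
  have hdf : ∀ l n, n ∈ d (fhat l) ↔ n < M l ∧ ∀ Y' ∈ U, n ∈ f (d l ∪ Y') := by
    intro l n
    simp only [mem_d, fhat, List.getElem?_ofFn]
    constructor
    · intro h
      split_ifs at h with h1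
      simp only [Option.some.injEq, decide_eq_true_eq] at h
      exact ⟨h1, h⟩
    · rintro ⟨h1, h2⟩
      rw [dif_pos h1]
      simp only [Option.some.injEq, decide_eq_true_eq]
      exact h2
  refine ⟨F, hF, ?_, k, fhat, hk, ?_, ?_, ?_, ?_⟩
  · intro X hX Z hZ hZX
    exact hf X hX.1 Z hZ.1 hZX
  · intro m s _ hl
    rw [hflen, hM s m hl]
  · intro s hs s' hs' hpre
    obtain ⟨m, hm, X, hX, hdX⟩ := hs
    obtain ⟨m', hm', X', hX', hdX'⟩ := hs'
    have hle : k m ≤ k m' := by rw [← hm, ← hm']; exact hpre.length_le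
    have hmm' : m ≤ m' := hk.le_iff_le.mp hle
    have hds : d s = X' ∩ Iio (k m) := by
      rw [d_of_isPrefix hpre, hdX', hm]
      ext i
      simp only [mem_inter_iff, mem_Iio]
      constructor
      · rintro ⟨⟨h1, _⟩, h2⟩; exact ⟨h1, h2⟩
      · rintro ⟨h1, h2⟩; exact ⟨⟨h1, lt_of_lt_of_le h2 hle⟩, h2⟩
    apply isPrefix_of_d
    · rw [hflen, hflen, hM s m hm, hM s' m' hm']; exact hmm'
    · ext n
      rw [mem_inter_iff, mem_Iio, hdf, hdf, hflen, hM s m hm, hM s' m' hm', hds, hdX']
      constructor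
      · rintro ⟨h1, h2⟩
        refine ⟨⟨by omega, ?_⟩, h1⟩
        exact (key X' hX' m' n (by omega)).mp ((key X' hX' m n h1).mpr h2)
      · rintro ⟨⟨h1, h2⟩, h3⟩
        exact ⟨h3, (key X' hX' m n h3).mp ((key X' hX' m' n h1).mpr h2)⟩
  · intro s hs t ht hlen hst
    obtain ⟨m, hm, X, hX, hdX⟩ := hs
    intro n hn
    rw [hdf] at hn ⊢
    rw [hM s m hm] at hn
    rw [hM t m (by rw [← hlen, hm])]
    refine ⟨hn.1, fun Y' hY' => ?_⟩
    refine hf _ ?_ _ ?_ ?_ (hn.2 Y' hY')
    · exact Filter.mem_of_superset hY' subset_union_right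
    · exact Filter.mem_of_superset hY' subset_union_right
    · exact union_subset_union_left _ hst
  · intro X hX
    ext n
    simp only [mem_iUnion, mem_ofPred_eq, exists_prop]
    constructor
    · intro hn
      refine ⟨chi X (k (n + 1)), ⟨chi_mem_strings hX _, initSeg_chi _ _⟩, ?_⟩
      rw [hdf, hM _ (n + 1) (chi_length _ _), d_chi]
      exact ⟨by omega, (key X hX (n + 1) n (by omega)).mp hn⟩
    · rintro ⟨s, ⟨_, hsX⟩, hn⟩
      rw [hdf] at hn
      have := hn.2 X hX.1
      rwa [union_eq_self_of_subset_left hsX.1] at this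

/-- **Main theorem.**  A nonprincipal ultrafilter `U` on `ω` with basic Tukey reductions is a
p-point.  Moreover, if the finitary maps `fhat` are only required to be monotone between strings of
the same length, then `U` has basic Tukey reductions if and only if it is a p-point. -/
theorem result (U : Ultrafilter ℕ) (_hU : Nonprincipal U) :
    (HasBasicTukeyReductions U → IsPPoint U) ∧
      (HasLevelBasicTukeyReductions U ↔ IsPPoint U) :=
  ⟨fun h => isPPoint_of_level (level_of_basic h),
    ⟨isPPoint_of_level, level_of_isPPoint⟩⟩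

end Pool.Agent.Results.MP_1c3dfa_lc.BasicTukeyIffPPoint
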