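import Pool.Agent.Lib.MP_1c3dfa_lc.Mono
import Pool.Agent.Lib.MP_1c3dfa_lc.SepNC
import Pool.Agent.Lib.MP_1c3dfa_lc.PPoint
import Pool.Agent.Lib.MP_1c3dfa_lc.StableOU
import Pool.Agent.Lib.MP_1c3dfa_lc.Prod
import Pool.Agent.Lib.MP_1c3dfa_lc.CH
import Pool.Agent.Lib.MP_1c3dfa_lc.Transfer

set_option autoImplicit false

/-!
# A product of three p-points with (pointwise) basic Tukey reductions

Let `p, q, r` be p-points no two of which are nearly coherent, and let `U` be their product
(`X ∈ U` iff `∀ᶠ a in p, ∀ᶠ b in q, ∀ᶠ c in r, code a b c ∈ X`).  Then every monotone cofinal map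
from `U` to an ultrafilter is, on a cofinal subset of `U`, generated by an initial segment
preserving monotone map on finite approximations (pointwise basic, hence continuous), but `U` is not
Tukey reducible to any p-point, nor to any stable ordered-union ultrafilter.  Such `p, q, r` exist
under CH.
-/

namespace Pool.Agent.Results.MP_1c3dfa_lc.PointwiseBasicProduct

open Set Pool.Agent.Lib.MP_1c3dfa_lc Pool.Agent.Lib.MP_1c3dfa_lc.ProdAux

/-- `U` is as asked for in Q1, in the pointwise reading of basic maps. -/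
def Answers (U : Ultrafilter ℕ) : Prop :=
  Nonprincipal U ∧ HasPointwiseBasicTukeyReductions U ∧
    (∀ W : Ultrafilter ℕ, Nonprincipal W → IsPPoint W → ¬ TukeyLE U W) ∧
    ∀ W : Ultrafilter FIN, IsOrderedUnion W → IsStable W → ¬ TukeyLE U W

theorem answers_fubini3 {p q r : Ultrafilter ℕ} (hnp : Nonprincipal p) (hnq : Nonprincipal q)
    (hnr : Nonprincipal r) (hp : IsPPoint p) (hq : IsPPoint q) (hr : IsPPoint r)
    (h1 : Sep p q) (h2 : Sep p r) (h3 : Sep q r) : Answers (fubini3 p q r) := by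
  obtain ⟨t1, t2, t3⟩ := tukeyLE_fubini3 p q r
  refine ⟨fubini3_nonprincipal hnp hnq hnr, fubini3_reductions hp hq hr hnp hnq hnr h1 h3,
    ?_, ?_⟩
  · intro W hnW hW h
    exact not_two_le_pPoint hW hnW hnp hnq h1 (TukeyLE.trans t1 h) (TukeyLE.trans t2 h)
  · intro W hW hS h
    obtain ⟨hW', hS'⟩ := transfer hW hS
    have hh := transfer_le h
    obtain ⟨f1, hf1⟩ := exists_tMap (TukeyLE.trans t1 hh)
    obtain ⟨f2, hf2⟩ := exists_tMap (TukeyLE.trans t2 hh)
    obtain ⟨f3, hf3⟩ := exists_tMap (TukeyLE.trans t3 hh)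
    refine not_three_le_stable hW' hS' ![p, q, r] ?_ ?_ ![f1, f2, f3] ?_
    · intro i; fin_cases i <;> assumption
    · intro i j hij
      fin_cases i <;> fin_cases j <;>
        first
          | exact absurd rfl hij
          | exact h1
          | exact h2
          | exact h3
          | exact Sep.symm h1
          | exact Sep.symm h2
          | exact Sep.symm h3
    · intro i; fin_cases i <;> assumption

/-- `f` restricted to `F` is continuous at every point of `F`, for the topology of `2^ω`. -/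
def IsContinuousOn (f : Set ℕ → Set ℕ) (F : Set (Set ℕ)) : Prop :=
  ∀ X ∈ F, ∀ m : ℕ, ∃ k : ℕ, ∀ Y ∈ F, Y ∩ Iio k = X ∩ Iio k → f Y ∩ Iio m = f X ∩ Iio m

/-- A pointwise basic map is continuous on its domain (for the topology of `2^ω`). -/
theorem continuous_of_pointwiseBasic {f : Set ℕ → Set ℕ} {F : Set (Set ℕ)}
    (h : IsPointwiseBasicOn f F) : IsContinuousOn f F := by
  obtain ⟨-, fhat, h1, h2, h3, h4⟩ := h
  have hchi : ∀ Z ∈ F, ∀ l, chi Z l ∈ approx F := by
    intro Z hZ l
    refine ⟨Z, hZ, ?_⟩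
    rw [d_chi, chi_length]
  intro X hX m
  obtain ⟨s, hs, hsX, hm⟩ := h3 X hX m
  -- for every `Z ∈ F` approximated by `s`, `f Z ∩ m` is given by `fhat s`
  have key : ∀ Z ∈ F, d s = Z ∩ Iio s.length → f Z ∩ Iio m = d (fhat s) ∩ Iio m := by
    intro Z hZ hsZ
    ext n
    constructor
    · rintro ⟨hn, hnm⟩
      refine ⟨?_, hnm⟩
      rw [h4 Z hZ] at hn
      simp only [mem_iUnion] at hn
      obtain ⟨t, ⟨ht, htZ⟩, hnt⟩ := hn
      -- replace `t` by the string of the same length approximating `Z`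
      have hn' : n ∈ d (fhat (chi Z t.length)) := by
        refine h2 t ht _ (hchi Z hZ _) ?_ hnt
        rw [d_chi]
        intro x hx
        exact ⟨htZ.1 hx, lt_length_of_mem_d hx⟩
      rcases le_total s.length t.length with hl | hl
      · have hpre : s <+: chi Z t.length := by
          refine isPrefix_of_d (by rw [chi_length]; exact hl) ?_
          rw [d_chi, hsZ]
          ext x
          simp only [mem_inter_iff, mem_Iio]
          constructor
          · rintro ⟨h5, h6⟩; exact ⟨⟨h5, by omega⟩, h6⟩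
          · rintro ⟨⟨h5, _⟩, h6⟩; exact ⟨h5, h6⟩
        have hpre' := h1 s hs _ (hchi Z hZ _) hpre
        rw [d_of_isPrefix hpre']
        exact ⟨hn', lt_of_lt_of_le hnm hm⟩
      · have hpre : chi Z t.length <+: s := by
          refine isPrefix_of_d (by rw [chi_length]; exact hl) ?_
          rw [d_chi, hsZ, chi_length]
          ext x
          simp only [mem_inter_iff, mem_Iio]
          constructor
          · rintro ⟨h5, h6⟩; exact ⟨⟨h5, by omega⟩, h6⟩
          · rintro ⟨⟨h5, _⟩, h6⟩; exact ⟨h5, h6⟩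
        have hpre' := h1 _ (hchi Z hZ _) s hs hpre
        rw [d_of_isPrefix hpre'] at hn'
        exact hn'.1
    · rintro ⟨hn, hnm⟩
      refine ⟨?_, hnm⟩
      rw [h4 Z hZ]
      simp only [mem_iUnion]
      refine ⟨s, ⟨hs, ?_⟩, hn⟩
      rw [hsZ]
      refine ⟨inter_subset_left, ?_⟩
      rintro x hx y ⟨_, hy⟩ hxy
      exact ⟨hx, lt_of_le_of_lt hxy hy⟩
  refine ⟨s.length, ?_⟩
  intro Y hY hYX
  rw [key X hX hsX, key Y hY (hsX.trans hYX.symm)]

theorem result :
    (∀ p q r : Ultrafilter ℕ, Nonprincipal p → Nonprincipal q → Nonprincipal r →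
      IsPPoint p → IsPPoint q → IsPPoint r →
      ¬ NearlyCoherent p q → ¬ NearlyCoherent p r → ¬ NearlyCoherent q r →
        Answers (fubini3 p q r)) ∧
    (Cardinal.continuum.{0} = Cardinal.aleph 1 → ∃ U : Ultrafilter ℕ, Answers U) ∧
    (∀ (f : Set ℕ → Set ℕ) (F : Set (Set ℕ)), IsPointwiseBasicOn f F → IsContinuousOn f F) := by
  refine ⟨?_, ?_, fun f F h => continuous_of_pointwiseBasic h⟩
  · intro p q r hnp hnq hnr hp hq hr h1 h2 h3
    exact answers_fubini3 hnp hnq hnr hp hq hr (sep_of_not_nearlyCoherent h1)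
      (sep_of_not_nearlyCoherent h2) (sep_of_not_nearlyCoherent h3)
  · intro h
    obtain ⟨V, hn, hp, hs⟩ := exists_three_of_CH h
    exact ⟨_, answers_fubini3 (hn 0) (hn 1) (hn 2) (hp 0) (hp 1) (hp 2)
      (hs 0 1 (by decide)) (hs 0 2 (by decide)) (hs 1 2 (by decide))⟩

end Pool.Agent.Results.MP_1c3dfa_lc.PointwiseBasicProduct
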